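import Mathlib
import Pool.Agent.Helper58.LT.FourG

/-!
# PS4: weighted character sums in mean square
-/

namespace Pool.Agent.Helper19.P3

open Finset Pool.Agent.Helper58.LT

/-- the square of the norm, with weights -/
theorem norm_sq_weighted {G τ : Type*} [AddCommGroup G] [Fintype G] [DecidableEq G]
    (T : Finset τ) (F : τ → G) (a : τ → ℂ) (χ : AddChar G ℂ) :
    ((‖∑ x ∈ T, a x * χ (F x)‖ ^ 2 : ℝ) : ℂ) =
      ∑ z ∈ T ×ˢ T, a z.1 * (starRingEnd ℂ) (a z.2) * χ (F z.1 - F z.2) := by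
  rw [← Complex.normSq_eq_norm_sq, ← Complex.mul_conj, map_sum, sum_mul_sum, ← sum_product']
  refine sum_congr rfl fun z _ => ?_
  rw [sub_eq_add_neg, AddChar.map_add_eq_mul, AddChar.map_neg_eq_conj, map_mul]
  ring

/-- a weighted character sum in mean square -/
theorem mean_sq_le {G τ : Type*} [AddCommGroup G] [Fintype G] [DecidableEq G] (T : Finset τ)
    (F : τ → G) (a : τ → ℂ) (A : ℝ) (hA : 0 ≤ A) (ha : ∀ x ∈ T, ‖a x‖ ≤ A) :
    (Fintype.card G : ℝ)⁻¹ * ∑ χ : AddChar G ℂ, ‖∑ x ∈ T, a x * χ (F x)‖ ^ 2 ≤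
      A ^ 2 * (en T F : ℝ) := by
  have hG : (Fintype.card G : ℂ) ≠ 0 := Nat.cast_ne_zero.2 Fintype.card_ne_zero
  have h : ((∑ χ : AddChar G ℂ, ‖∑ x ∈ T, a x * χ (F x)‖ ^ 2 : ℝ) : ℂ) =
      (Fintype.card G : ℂ) * ∑ z ∈ (T ×ˢ T).filter (fun z => F z.1 = F z.2),
        a z.1 * (starRingEnd ℂ) (a z.2) := by
    rw [Complex.ofReal_sum]
    simp only [norm_sq_weighted]
    rw [sum_comm]
    simp only [← mul_sum, AddChar.sum_apply_eq_ite, sub_eq_zero]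
    rw [mul_sum, sum_filter]
    refine sum_congr rfl fun z _ => ?_
    split_ifs <;> ring
  have h2 : (((Fintype.card G : ℝ)⁻¹ * ∑ χ : AddChar G ℂ, ‖∑ x ∈ T, a x * χ (F x)‖ ^ 2 : ℝ) : ℂ) =
      ∑ z ∈ (T ×ˢ T).filter (fun z => F z.1 = F z.2), a z.1 * (starRingEnd ℂ) (a z.2) := by
    rw [Complex.ofReal_mul, h, Complex.ofReal_inv, Complex.ofReal_natCast,
      inv_mul_cancel_left₀ hG]
  have h0 : 0 ≤ (Fintype.card G : ℝ)⁻¹ * ∑ χ : AddChar G ℂ, ‖∑ x ∈ T, a x * χ (F x)‖ ^ 2 := by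
    positivity
  calc (Fintype.card G : ℝ)⁻¹ * ∑ χ : AddChar G ℂ, ‖∑ x ∈ T, a x * χ (F x)‖ ^ 2
      = ‖(((Fintype.card G : ℝ)⁻¹ *
          ∑ χ : AddChar G ℂ, ‖∑ x ∈ T, a x * χ (F x)‖ ^ 2 : ℝ) : ℂ)‖ := by
        rw [Complex.norm_real, Real.norm_of_nonneg h0]
    _ = ‖∑ z ∈ (T ×ˢ T).filter (fun z => F z.1 = F z.2), a z.1 * (starRingEnd ℂ) (a z.2)‖ := by
        rw [h2]
    _ ≤ ∑ z ∈ (T ×ˢ T).filter (fun z => F z.1 = F z.2), ‖a z.1 * (starRingEnd ℂ) (a z.2)‖ :=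
        norm_sum_le _ _
    _ ≤ ∑ _z ∈ (T ×ˢ T).filter (fun z => F z.1 = F z.2), A ^ 2 := by
        refine sum_le_sum fun z hz => ?_
        rw [mem_filter, mem_product] at hz
        rw [norm_mul, RCLike.norm_conj, pow_two]
        exact mul_le_mul (ha _ hz.1.1) (ha _ hz.1.2) (norm_nonneg _) hA
    _ = A ^ 2 * (en T F : ℝ) := by
        rw [sum_const, nsmul_eq_mul, mul_comm]
        rfl

end Pool.Agent.Helper19.P3
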